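import Pool.Agent.R832.NU.Main

/-!
# Non-ubiquity of partial symmetric decompositions, in every codimension `r ≥ 3`

`A = R / Ann(F)` with `F = Y^[3] Z^[6] + Y^[8] + X Z^[7] + Σ W_l^[2]`, of socle degree `9`, has
`H_A(0) = (1, 2, 3, 4, 4, 4, 4, 3, 2, 1)` and `H_A(1) = (0, 1, 0, 0, 1, 0, 0, 1, 0)`. An AG algebra `B`
with `D(B) = (H_A(0), H_A(1))` has `C(2) = 0`, so there are `x ∈ m ∖ m^2` with `x m ⊆ m^3` and
`c ∈ m^4 ∖ m^5` with `c m^5 = 0`, `c m ⊆ m^6`. Then `m^i` is spanned modulo `m^(i+1)` by the forms of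
degree `i` in two elements `y, z`, the forms of degree `7` in `m^8` are the multiples of the initial
form `p` of `c` (as `dim m^7/m^8 = 4`), and `z (c y) = y (c z)` gives a form `N` of degree `5` with
`(c - N) y, (c - N) z ∈ m^7`. So `(c - N) m^4 = 0`, and `C(2)_4 = 0` gives `c ∈ m^5`.
-/

set_option autoImplicit false

namespace Pool.Agent.Results.MP_29aef5_ag.NonUbiquity

open Pool.Agent.R832.NU

universe u

/-- For every field `K` and every `r ≥ 3`, there is an AG algebra `A = R / I`,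
`R = K[[x_1, …, x_r]]`, of embedding dimension `r` (`I ⊆ m_R ^ 2`), and `a ≥ 1` such that
`D_{≤ a}(A)` is non-ubiquitous. -/
theorem result (K : Type u) [Field K] (r : ℕ) (hr : 3 ≤ r) :
    ∃ I : Ideal (MvPowerSeries (Fin r) K), IsAG I ∧
      I ≤ IsLocalRing.maximalIdeal (MvPowerSeries (Fin r) K) ^ 2 ∧
      ∃ a : ℕ, 1 ≤ a ∧ NonUbiquitous I a :=
  ⟨annF (V3 hr) K, (main hr).1, annF_le (V3 hr), 1, le_rfl, (main hr).2⟩

end Pool.Agent.Results.MP_29aef5_ag.NonUbiquity
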